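import Mathlib
import Pool.Agent.H906R3.YM.Conc
import Pool.Agent.W793.YM.Inf
import Pool.Agent.TH618.YM.Cartan
import Pool.Agent.T2h94.Scal
import Pool.Agent.T2h85.KA6

/-!
# Lattice Yang-Mills theory: the scaling limit of the gauge invariant fields at weak coupling

Wilson's lattice gauge theory in dimension `d ≥ 3` with gauge group a closed subgroup `G` of `U(N)`,
of dimension `n`, in the infinite volume, with the lattice spacing `a_i → 0` and with inverse
couplings `β_i ≥ a_i ^ (-p)`, `p = p(d, r)` explicit. The gauge invariant local fields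
`- β tr (F_{jk} F_{lm}) (x)`, minus their expectations and divided by `a_i ^ d`, have `r` point
functions at different points of `ℝ^d` which converge to those of the Wick squares
`∑_a :F^a_{jk} F^a_{lm}:` of the curvatures `F^1, …, F^n` of `n` independent free Maxwell fields.
-/

open MeasureTheory Matrix Filter
open scoped Matrix.Norms.Frobenius Topology ContDiff

namespace Pool.Agent.Results.MP_7f377f_mp.C_ScalingLimit

set_option linter.unusedSectionVars false

noncomputable section

/-- Complex `N × N` matrices. -/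
abbrev Mt (N : ℕ) := Matrix (Fin N) (Fin N) ℂ

/-- The unitary group `U(N)`. -/
abbrev UU (N : ℕ) := Matrix.unitaryGroup (Fin N) ℂ

/-- The matrix of an element of a subgroup of `U(N)`. -/
def mt {N : ℕ} {G : Subgroup (UU N)} (g : G) : Mt N := ((g : UU N) : Mt N)

/-- The dimension of `G`: the dimension of the real space spanned by all matrices `Y` with
`exp (t Y) ∈ G` for all real `t`. -/
def dimG {N : ℕ} (G : Subgroup (UU N)) : ℕ :=
  Module.finrank ℝ (Submodule.span ℝ {Y : Mt N | ∀ t : ℝ, ∃ g : G, mt g = NormedSpace.exp (t • Y)})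

/-- Links of the periodic lattice `(ℤ/l)^d`: base point and direction. -/
abbrev Link (d l : ℕ) := (Fin d → ZMod l) × Fin d

/-- Links of the lattice `ℤ^d`: base point and direction. -/
abbrev LinkZ (d : ℕ) := (Fin d → ℤ) × Fin d

section

variable {N n d l : ℕ} {G : Subgroup (UU N)}

/-- The product of the link variables around the plaquette at `x` in the directions `i`, `j`. -/
def plaq (U : Link d l → G) (x : Fin d → ZMod l) (i j : Fin d) : G :=
  U (x, i) * U (x + Pi.single i 1, j) * (U (x + Pi.single j 1, i))⁻¹ * (U (x, j))⁻¹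

/-- The Wilson action `∑_p Re tr (1 - U_p)`, the sum over the plaquettes. -/
def action [NeZero l] (U : Link d l → G) : ℝ :=
  ∑ x : Fin d → ZMod l, ∑ i : Fin d, ∑ j : Fin d,
    if i < j then (trace (1 - mt (plaq U x i j))).re else 0

/-- The periodic extension of a configuration. -/
def per (U : Link d l → G) : LinkZ d → G := fun e => U (fun i => (e.1 i : ZMod l), e.2)

/-- The expectation of `F` in the lattice Yang-Mills theory on `(ℤ/l)^d`, `μ` being the Haar
measure. -/
def expect (l : ℕ) [NeZero l] [MeasurableSpace G] (μ : Measure G) (β : ℝ)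
    (F : (LinkZ d → G) → ℝ) : ℝ :=
  (∫ U : Link d l → G, F (per U) * Real.exp (-(β * action U)) ∂(Measure.pi fun _ => μ)) /
    ∫ U : Link d l → G, Real.exp (-(β * action U)) ∂(Measure.pi fun _ => μ)

/-- `ν` is an infinite volume limit (weak limit along a subsequence) of the theories on the tori of
even side at inverse coupling `β`. -/
structure IsInfVol [MeasurableSpace G] (μ : Measure G) (β : ℝ)
    (ν : Measure (LinkZ d → G)) : Prop where
  prob : IsProbabilityMeasure ν
  lim : ∃ s : ℕ → ℕ, Tendsto s atTop atTop ∧ ∀ F : (LinkZ d → G) → ℝ, Continuous F →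
    Tendsto (fun j => expect (2 * (s j + 1)) μ β F) atTop (𝓝 (∫ V, F V ∂ν))

/-- The product of the link variables around the plaquette of `ℤ^d` at `x` in the directions `i`,
`j`. -/
def plaqZ (V : LinkZ d → G) (x : Fin d → ℤ) (i j : Fin d) : G :=
  V (x, i) * V (x + Pi.single i 1, j) * (V (x + Pi.single j 1, i))⁻¹ * (V (x, j))⁻¹

/-- The lattice curvature `F_{ij}(x)`: the antihermitian part `(U_p - U_p^*)/2` of the plaquette
`p` at `x` in the directions `p = (i, j)`. -/
def curv (V : LinkZ d → G) (x : Fin d → ℤ) (p : Fin d × Fin d) : Mt N :=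
  (1 / 2 : ℝ) • (mt (plaqZ V x p.1 p.2) - (mt (plaqZ V x p.1 p.2))ᴴ)

/-- The gauge invariant local field `- β tr (F_{jk} F_{lm}) (x)`, with `D = ((j, k), (l, m))`. -/
def field (β : ℝ) (V : LinkZ d → G) (x : Fin d → ℤ) (D : (Fin d × Fin d) × Fin d × Fin d) : ℝ :=
  -(β * (trace (curv V x D.1 * curv V x D.2)).re)

end

/-- The second derivative `- ∂_l ∂_j G` at `X ∈ ℝ^d` of the Green function
`G(X) = Γ(d/2 - 1) / (4 π^(d/2)) |X|^(2-d)` of minus the Laplacian on `ℝ^d`:
`(Γ(d/2) / (2 π^(d/2))) (δ_{lj} |X|^2 - d X_l X_j) / |X|^(d+2)`. -/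
def greenD (d : ℕ) (l j : Fin d) (X : Fin d → ℝ) : ℝ :=
  Real.Gamma (d / 2) / (2 * Real.pi ^ (d / 2 : ℝ)) *
    (((if l = j then ∑ i, X i ^ 2 else 0) - d * (X l * X j)) /
      (∑ i, X i ^ 2) ^ (d / 2 + 1 : ℝ))

/-- The covariance of `F_{jk}(0)` and `F_{lm}(X)`, with `p = (j, k)` and `q = (l, m)`, in the free
Maxwell field on `ℝ^d` with the action `(1/4) ∫ ∑_{jk} F_{jk}^2`. -/
def maxwell {d : ℕ} (X : Fin d → ℝ) (p q : Fin d × Fin d) : ℝ :=
  (if q.2 = p.2 then greenD d q.1 p.1 X else 0) - (if q.2 = p.1 then greenD d q.1 p.2 X else 0) -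
    (if q.1 = p.2 then greenD d q.2 p.1 X else 0) + (if q.1 = p.1 then greenD d q.2 p.2 X else 0)

/-- The sum over all pairings of the finite set `S` of the products over the pairs `i < j` of
`C i j`, defined recursively: the least element is paired with each of the other ones. -/
def pairings {ι : Type*} [LinearOrder ι] (C : ι → ι → ℝ) (S : Finset ι) : ℝ :=
  if h : S.Nonempty then
    ∑ t ∈ (S.erase (S.min' h)).attach,
      C (S.min' h) t * pairings C ((S.erase (S.min' h)).erase t)
  else 1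
termination_by S.card
decreasing_by
  exact lt_of_le_of_lt (Finset.card_le_card (Finset.erase_subset _ _))
    (Finset.card_erase_lt_of_mem (Finset.min'_mem S h))

/-- The legs of `r` quadratic fields: the vertex `s` has the legs `(s, false)` and `(s, true)`. -/
abbrev Leg (r : ℕ) := Fin r ×ₗ Bool

/-- The covariance of two legs, the vertex `s` being at `x_s ∈ ℝ^d` with the directions `D_s` and
the colour `α_s`: Maxwell's covariance if the vertices are different and the colours are the
same, and otherwise `0`. -/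
def legCov {n d r : ℕ} (x : Fin r → Fin d → ℝ) (D : Fin r → (Fin d × Fin d) × Fin d × Fin d)
    (α : Fin r → Fin n) (i j : Leg r) : ℝ :=
  if (ofLex i).1 = (ofLex j).1 then 0 else
    if α (ofLex i).1 = α (ofLex j).1 then
      maxwell (x (ofLex j).1 - x (ofLex i).1)
        (if (ofLex i).2 then (D (ofLex i).1).2 else (D (ofLex i).1).1)
        (if (ofLex j).2 then (D (ofLex j).1).2 else (D (ofLex j).1).1)
    else 0

/-- The `r` point function `⟨∏_s ∑_{a=1}^n :F^a_{jk} F^a_{lm}: (x_s)⟩`, `D_s = ((j, k), (l, m))`, of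
the Wick squares of `n` independent free Maxwell fields on `ℝ^d` (Wick's theorem: no pairings
within a vertex). -/
def wickSquares {d r : ℕ} (n : ℕ) (x : Fin r → Fin d → ℝ)
    (D : Fin r → (Fin d × Fin d) × Fin d × Fin d) : ℝ :=
  ∑ α : Fin r → Fin n, pairings (legCov x D α) Finset.univ

/-- The power of the lattice spacing. -/
def power (d r : ℕ) : ℕ := 4 * ((d * r + r + 3) * (8 * d * r + 12 * d + 13))

open Pool.Agent.H906R3 Pool.Agent.W793 Pool.Agent.TH618 Pool.Agent

/-- A Haar probability measure is invariant under right multiplications. -/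
lemma right_inv {H : Type*} [Group H] [TopologicalSpace H] [IsTopologicalGroup H]
    [CompactSpace H] [MeasurableSpace H] [BorelSpace H] (μ : Measure H)
    [IsProbabilityMeasure μ] [μ.IsHaarMeasure] : μ.IsMulRightInvariant := by
  refine ⟨fun g => ?_⟩
  have h1 : IsProbabilityMeasure (Measure.map (fun x => x * g) μ) :=
    Measure.isProbabilityMeasure_map (measurable_mul_const g).aemeasurable
  exact Measure.isHaarMeasure_eq_of_isProbabilityMeasure _ _

/-- A Haar probability measure is invariant under the inversion. -/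
lemma inv_inv' {H : Type*} [Group H] [TopologicalSpace H] [IsTopologicalGroup H]
    [CompactSpace H] [MeasurableSpace H] [BorelSpace H] (μ : Measure H)
    [IsProbabilityMeasure μ] [μ.IsHaarMeasure] : μ.IsInvInvariant := by
  have hr := right_inv μ
  refine ⟨?_⟩
  have h1 : IsProbabilityMeasure μ.inv :=
    Measure.isProbabilityMeasure_map measurable_inv.aemeasurable
  have h2 : μ.inv.IsMulLeftInvariant := inferInstance
  have h3 : μ.inv.IsHaarMeasure :=
    Measure.isHaarMeasure_of_isCompact_nonempty_interior μ.inv Set.univ isCompact_univ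
      (by simp) (by simp) (by simp)
  exact Measure.isHaarMeasure_eq_of_isProbabilityMeasure _ _

lemma pairings_eq {ι : Type*} [LinearOrder ι] (C : ι → ι → ℝ) (S : Finset ι) :
    pairings C S = T2h94.wick C S := by
  induction S using T2h94.wick_ind with
  | h0 => rw [T2h94.wick_empty, pairings, dif_neg (by simp)]
  | h1 S m hm hmin ih =>
    have h : S.Nonempty := ⟨m, hm⟩
    rw [T2h94.wick_rec C h, pairings, dif_pos h]
    rw [Finset.sum_attach (S.erase (S.min' h))
      (fun t => C (S.min' h) t * pairings C ((S.erase (S.min' h)).erase t))]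
    refine Finset.sum_congr rfl fun t _ => ?_
    rw [ih _ (T2h94.erase_ssub (Finset.min'_mem _ _) t)]

lemma wickSquares_eq {d r : ℕ} (n : ℕ) (x : Fin r → Fin d → ℝ)
    (D : Fin r → (Fin d × Fin d) × Fin d × Fin d) :
    wickSquares n x D = ∑ α : Fin r → Fin n,
      T2h94.wick (T2h94.Cr (fun X p q => T2h94.Dk d p q X) x D α) Finset.univ := by
  unfold wickSquares
  refine Finset.sum_congr rfl fun α _ => ?_
  rw [pairings_eq]
  rfl

variable {N n d l : ℕ} {G : Subgroup (UU N)}

lemma dim_eq (B : YM.Frame G n) : dimG G = n := by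
  have hli : LinearIndependent ℝ B.X := by
    rw [Fintype.linearIndependent_iff]
    intro c hc a
    have h1 : (trace ((B.X a)ᴴ * ∑ b, c b • B.X b)).re = c a := by
      rw [Finset.mul_sum, trace_sum, Complex.re_sum]
      have h2 : ∀ b, (trace ((B.X a)ᴴ * (c b • B.X b))).re = if a = b then c b else 0 := by
        intro b
        rw [Matrix.mul_smul, trace_smul, Complex.smul_re, B.orth, smul_eq_mul, mul_ite, mul_one,
          mul_zero]
      simp only [h2]
      rw [Finset.sum_ite_eq Finset.univ a, if_pos (Finset.mem_univ a)]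
    rw [hc, mul_zero, trace_zero] at h1
    exact h1.symm
  have hspan : Submodule.span ℝ {Y : Mt N | ∀ t : ℝ, ∃ g : G, mt g = NormedSpace.exp (t • Y)} =
      Submodule.span ℝ (Set.range B.X) := by
    refine le_antisymm (Submodule.span_le.2 fun Y hY => B.full Y hY) (Submodule.span_le.2 ?_)
    rintro _ ⟨a, rfl⟩
    exact Submodule.subset_span fun t => ⟨B.ex a t, B.ex_eq a t⟩
  unfold dimG
  rw [hspan, finrank_span_eq_card hli, Fintype.card_fin]

section bridge

variable [CompactSpace G] [SecondCountableTopology G] [MeasurableSpace G] [BorelSpace G]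
  (μ : Measure G) [IsProbabilityMeasure μ] [μ.IsHaarMeasure] (B : YM.Frame G n)

lemma expect_eq [NeZero l] (β : ℝ) (F : (LinkZ d → G) → ℝ) : expect l μ β F =
    YM.EX μ B.toLD β (fun U : YM.Ed d l → G => F (YM.lf U)) := by
  unfold expect YM.EX YM.Zt
  simp only [one_mul]
  rfl

include B in
lemma action_cont [NeZero l] : Continuous (action : (Link d l → G) → ℝ) :=
  YM.act_cont (L := B.toLD)

include B in
/-- existence of infinite volume limits -/
lemma exists_infVol (β : ℝ) : ∃ ν : Measure (LinkZ d → G), IsInfVol μ β ν := by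
  have hP : ∀ j : ℕ, ∃ P : ProbabilityMeasure (LinkZ d → G),
      ∀ F : (LinkZ d → G) → ℝ, Continuous F →
        ∫ V, F V ∂(P : Measure (LinkZ d → G)) = expect (2 * (j + 1)) μ β F := by
    intro j
    have hper : Continuous (per : (Link d (2 * (j + 1)) → G) → LinkZ d → G) :=
      continuous_pi fun e => continuous_apply _
    have hexp : Continuous fun U : Link d (2 * (j + 1)) → G =>
        Real.exp (-(β * action U)) :=
      Real.continuous_exp.comp (continuous_const.mul (action_cont B)).neg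
    have hint : Integrable (fun U : Link d (2 * (j + 1)) → G =>
        Real.exp (-(β * action U))) (Measure.pi fun _ => μ) :=
      hexp.integrable_of_hasCompactSupport (HasCompactSupport.of_compactSpace _)
    have h1 := isProbabilityMeasure_tilted (f := fun U : Link d (2 * (j + 1)) → G =>
      -(β * action U)) hint
    refine ⟨⟨((Measure.pi fun _ => μ).tilted fun U : Link d (2 * (j + 1)) → G =>
      -(β * action U)).map per, Measure.isProbabilityMeasure_map hper.aemeasurable⟩,
      fun F hF => ?_⟩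
    show ∫ V, F V ∂(((Measure.pi fun _ => μ).tilted fun U : Link d (2 * (j + 1)) → G =>
      -(β * action U)).map per) = _
    rw [integral_map hper.aemeasurable hF.aestronglyMeasurable, integral_tilted]
    unfold expect
    rw [← integral_div]
    refine integral_congr_ae (Filter.Eventually.of_forall fun U => ?_)
    simp only [smul_eq_mul]
    ring
  choose P hP using hP
  obtain ⟨ν, s, hs, hlim⟩ := CompactSpace.tendsto_subseq P
  refine ⟨ν, ⟨inferInstance, s, hs.tendsto_atTop, fun F hF => ?_⟩⟩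
  have h1 := (ProbabilityMeasure.tendsto_iff_forall_integral_tendsto.1 hlim)
    (BoundedContinuousFunction.mkOfCompact ⟨F, hF⟩)
  simp only [Function.comp_apply, BoundedContinuousFunction.mkOfCompact_apply,
    ContinuousMap.coe_mk] at h1
  simpa only [hP _ F hF] using h1

lemma plaqZ_lf (U : YM.Ed d l → G) (x : Fin d → ℤ) (i j : Fin d) :
    plaqZ (YM.lf U) x i j = YM.plqT U (YM.zt l x) i j := by
  unfold plaqZ YM.plqT
  rw [← YM.zt_add, ← YM.zt_add]
  rfl

lemma curv_lf (U : YM.Ed d l → G) (x : Fin d → ℤ) (p : Fin d × Fin d) :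
    curv (YM.lf U) x p = T2h94.asm B.toLD (YM.plqT U (YM.zt l x) p.1 p.2) := by
  unfold curv
  rw [plaqZ_lf]
  rfl

lemma field_lf {β b : ℝ} (hb : β = b ^ 4) (U : YM.Ed d l → G) (x : Fin d → ℤ)
    (D : (Fin d × Fin d) × Fin d × Fin d) :
    field β (YM.lf U) x D = T2h94.Xo B.toLD b (YM.zt l x) D U := by
  unfold field T2h94.Xo
  rw [curv_lf B, curv_lf B, hb, YM.ip_apply]
  have h : (T2h94.asm B.toLD (YM.plqT U (YM.zt l x) D.1.1 D.1.2))ᴴ =
      -T2h94.asm B.toLD (YM.plqT U (YM.zt l x) D.1.1 D.1.2) := by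
    unfold T2h94.asm
    rw [conjTranspose_smul, conjTranspose_sub, conjTranspose_conjTranspose, star_trivial, ← smul_neg,
      neg_sub]
  rw [h, neg_mul, trace_neg, Complex.neg_re]
  ring

lemma field_cont (β : ℝ) (x : Fin d → ℤ) (D : (Fin d × Fin d) × Fin d × Fin d) :
    Continuous fun V : LinkZ d → G => field β V x D := by
  have hc : ∀ e : LinkZ d, Continuous fun V : LinkZ d → G => V e := fun e => continuous_apply e
  have h0 : ∀ p : Fin d × Fin d, Continuous fun V : LinkZ d → G => plaqZ V x p.1 p.2 := fun p => by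
    show Continuous fun V : LinkZ d → G => V (x, p.1) * V (x + Pi.single p.1 1, p.2) *
      (V (x + Pi.single p.2 1, p.1))⁻¹ * (V (x, p.2))⁻¹
    exact (((hc _).mul (hc _)).mul (hc _).inv).mul (hc _).inv
  have h2 : Continuous (mt : G → Mt N) := continuous_subtype_val.comp continuous_subtype_val
  have h3 : ∀ p : Fin d × Fin d, Continuous fun V : LinkZ d → G => curv V x p := fun p => by
    have h4 : Continuous fun V : LinkZ d → G => mt (plaqZ V x p.1 p.2) - (mt (plaqZ V x p.1 p.2))ᴴ :=
      (h2.comp (h0 p)).sub (h2.comp (h0 p)).matrix_conjTranspose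
    have h5 := h4.const_smul (1 / 2 : ℝ)
    exact h5
  exact (continuous_const.mul (Complex.continuous_re.comp
    ((h3 D.1).matrix_mul (h3 D.2)).matrix_trace)).neg

/-- the truncated products in the infinite volume -/
lemma trunc_lim {r : ℕ} {β b : ℝ} (hb : β = b ^ 4) {ν : Measure (LinkZ d → G)}
    [IsProbabilityMeasure ν] {s : ℕ → ℕ}
    (hlim : ∀ F : (LinkZ d → G) → ℝ, Continuous F →
      Tendsto (fun j => expect (2 * (s j + 1)) μ β F) atTop (𝓝 (∫ V, F V ∂ν)))
    (y : Fin r → Fin d → ℤ) (D : Fin r → (Fin d × Fin d) × Fin d × Fin d) :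
    Tendsto (fun j => YM.EX μ B.toLD (b ^ 4) (fun U : YM.Ed d (2 * (s j + 1)) → G =>
        ∏ t, (T2h94.Xo B.toLD b (YM.zt (2 * (s j + 1)) (y t)) (D t) U -
        YM.EX μ B.toLD (b ^ 4) (T2h94.Xo B.toLD b (YM.zt (2 * (s j + 1)) (y t)) (D t) :
          (YM.Ed d (2 * (s j + 1)) → G) → ℝ)))) atTop
      (𝓝 (∫ V, ∏ t, (field β V (y t) (D t) - ∫ V', field β V' (y t) (D t) ∂ν) ∂ν)) := by
  have := right_inv μ
  have := inv_inv' μ
  obtain ⟨F, hF⟩ : ∃ F : Fin r → (LinkZ d → G) → ℝ, F = fun t V => field β V (y t) (D t) :=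
    ⟨_, rfl⟩
  have hFc : ∀ t, Continuous (F t) := fun t => by rw [hF]; exact field_cont _ _ _
  have hint : ∀ H : (LinkZ d → G) → ℝ, Continuous H → Integrable H ν := fun H hH =>
    hH.integrable_of_hasCompactSupport (HasCompactSupport.of_compactSpace _)
  -- the limit, expanded
  have e1 : ∫ V, ∏ t, (field β V (y t) (D t) - ∫ V', field β V' (y t) (D t) ∂ν) ∂ν =
      ∑ T : Finset (Fin r), (∏ t ∈ Tᶜ, -∫ V', F t V' ∂ν) * ∫ V, ∏ t ∈ T, F t V ∂ν := by
    have e2 : ∀ V, ∏ t, (field β V (y t) (D t) - ∫ V', field β V' (y t) (D t) ∂ν) =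
        ∑ T : Finset (Fin r), (∏ t ∈ Tᶜ, -∫ V', F t V' ∂ν) * ∏ t ∈ T, F t V := by
      intro V
      have e3 : ∀ t, field β V (y t) (D t) - ∫ V', field β V' (y t) (D t) ∂ν =
          F t V + -∫ V', F t V' ∂ν := fun t => by rw [hF, sub_eq_add_neg]
      rw [Finset.prod_congr rfl fun t _ => e3 t, Finset.prod_add, Finset.powerset_univ]
      refine Finset.sum_congr rfl fun T _ => ?_
      rw [mul_comm, Finset.compl_eq_univ_sdiff]
    simp only [e2]
    rw [integral_finsetSum _ fun T _ => (hint _ (continuous_finsetProd T fun t _ => hFc t)).const_mul _]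
    refine Finset.sum_congr rfl fun T _ => ?_
    rw [integral_const_mul]
  rw [e1]
  have e4 : ∀ j, YM.EX μ B.toLD (b ^ 4) (fun U : YM.Ed d (2 * (s j + 1)) → G =>
        ∏ t, (T2h94.Xo B.toLD b (YM.zt (2 * (s j + 1)) (y t)) (D t) U -
        YM.EX μ B.toLD (b ^ 4) (T2h94.Xo B.toLD b (YM.zt (2 * (s j + 1)) (y t)) (D t) :
          (YM.Ed d (2 * (s j + 1)) → G) → ℝ))) =
      ∑ T : Finset (Fin r), (∏ t ∈ Tᶜ, -expect (2 * (s j + 1)) μ β (F t)) *
        expect (2 * (s j + 1)) μ β (fun V => ∏ t ∈ T, F t V) := by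
    intro j
    have e5 : ∀ (t : Fin r) (U : YM.Ed d (2 * (s j + 1)) → G),
        T2h94.Xo B.toLD b (YM.zt (2 * (s j + 1)) (y t)) (D t) U = F t (YM.lf U) := fun t U => by
      rw [hF]; exact (field_lf B hb U (y t) (D t)).symm
    have e6 : ∀ t, YM.EX μ B.toLD (b ^ 4) (T2h94.Xo B.toLD b (YM.zt (2 * (s j + 1)) (y t)) (D t) :
          (YM.Ed d (2 * (s j + 1)) → G) → ℝ) = expect (2 * (s j + 1)) μ β (F t) := fun t => by
      rw [expect_eq μ B, hb]
      congr 1
      funext U
      exact e5 t U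
    simp only [e6]
    have e7 : (fun U : YM.Ed d (2 * (s j + 1)) → G =>
        ∏ t, (T2h94.Xo B.toLD b (YM.zt (2 * (s j + 1)) (y t)) (D t) U -
          expect (2 * (s j + 1)) μ β (F t))) = fun U => ∑ T : Finset (Fin r),
          (∏ t ∈ Tᶜ, -expect (2 * (s j + 1)) μ β (F t)) * ∏ t ∈ T, F t (YM.lf U) := by
      funext U
      have e3 : ∀ t, T2h94.Xo B.toLD b (YM.zt (2 * (s j + 1)) (y t)) (D t) U -
          expect (2 * (s j + 1)) μ β (F t) = F t (YM.lf U) +
          -expect (2 * (s j + 1)) μ β (F t) := fun t => by rw [e5, sub_eq_add_neg]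
      rw [Finset.prod_congr rfl fun t _ => e3 t, Finset.prod_add, Finset.powerset_univ]
      refine Finset.sum_congr rfl fun T _ => ?_
      rw [mul_comm, Finset.compl_eq_univ_sdiff]
    rw [e7]
    have hlfc : Continuous (YM.lf : (YM.Ed d (2 * (s j + 1)) → G) → LinkZ d → G) :=
      continuous_pi fun e => continuous_apply _
    rw [YM.EX_sum μ Finset.univ (F := fun (T : Finset (Fin r)) U =>
      (∏ t ∈ Tᶜ, -expect (2 * (s j + 1)) μ β (F t)) * ∏ t ∈ T, F t (YM.lf U)) fun T _ =>
        continuous_const.mul (continuous_finsetProd T fun t _ => (hFc t).comp hlfc)]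
    refine Finset.sum_congr rfl fun T _ => ?_
    rw [YM.EX_smul, expect_eq μ B β (fun V => ∏ t ∈ T, F t V), hb]
  simp only [e4]
  refine tendsto_finsetSum _ fun T _ => ?_
  refine Tendsto.mul (tendsto_finsetProd _ fun t _ => (hlim _ (hFc t)).neg) ?_
  exact hlim _ (continuous_finsetProd T fun t _ => hFc t)

end bridge

/-- In dimension `d ≥ 3`, for every closed subgroup `G` of `U(N)`, all lattice spacings `a_i → 0`
and inverse couplings `β_i ≥ a_i ^ (-power d r)` and all infinite volume limits `ν_i` of the lattice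
Yang-Mills theories at `β_i`, the truncated `r` point functions of the gauge invariant local fields
`- β_i tr (F_{jk} F_{lm})`, divided by `a_i ^ d`, at lattice points `y_{i,s}` with
`a_i y_{i,s} → x_s`, the points `x_s ∈ ℝ^d` being different, converge to those of the Wick squares
`∑_a :F^a_{jk} F^a_{lm}:` of `dim G` independent free Maxwell fields. -/
theorem result {N d : ℕ} (hd : 3 ≤ d) (r : ℕ) (G : Subgroup (UU N))
    (hG : IsClosed (G : Set (UU N))) [MeasurableSpace G] [BorelSpace G]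
    (μ : Measure G) [IsProbabilityMeasure μ] [μ.IsHaarMeasure] :
    (∀ β : ℝ, ∃ ν : Measure (LinkZ d → G), IsInfVol μ β ν) ∧
    ∀ a β : ℕ → ℝ, (∀ i, 0 < a i) → Tendsto a atTop (𝓝 0) →
      (∀ᶠ i in atTop, 1 ≤ β i * a i ^ power d r) →
      ∀ ν : ℕ → Measure (LinkZ d → G), (∀ i, IsInfVol μ (β i) (ν i)) →
      ∀ x : Fin r → Fin d → ℝ, Function.Injective x →
      ∀ y : ℕ → Fin r → Fin d → ℤ,
        (∀ s k, Tendsto (fun i => a i * (y i s k : ℝ)) atTop (𝓝 (x s k))) →
      ∀ D : Fin r → (Fin d × Fin d) × Fin d × Fin d,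
        Tendsto (fun i => ∫ V, ∏ s, ((a i ^ d)⁻¹ * (field (β i) V (y i s) (D s) -
            ∫ V', field (β i) V' (y i s) (D s) ∂(ν i))) ∂(ν i)) atTop
          (𝓝 (wickSquares (dimG G) x D)) := by
  have : CompactSpace G := by
    have h1 : IsCompact (G : Set (UU N)) := hG.isCompact
    exact isCompact_iff_compactSpace.1 h1
  have h00 : SecondCountableTopology (UU N) := TopologicalSpace.Subtype.secondCountableTopology _
  have : SecondCountableTopology G := TopologicalSpace.Subtype.secondCountableTopology _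
  have := right_inv μ
  have := inv_inv' μ
  obtain ⟨n, ⟨B⟩⟩ := YM.exists_frame hG
  obtain ⟨C0, hC0, hcar⟩ := YM.cartan' B hG
  rw [dim_eq B]
  refine ⟨fun β => exists_infVol μ B β, fun a β ha ha0 hβ ν hν x hx y hy D => ?_⟩
  obtain ⟨E, hE⟩ : ∃ E, E = 4 * (r + 3 + d * r) := ⟨_, rfl⟩
  obtain ⟨P, hP⟩ : ∃ P, P = d * (2 * r + 3) + 3 := ⟨_, rfl⟩
  obtain ⟨q, hq⟩ : ∃ q, q = E * P + (r + 3 + d * r) := ⟨_, rfl⟩
  have hpow : power d r = 4 * q := by
    unfold power
    rw [hq, hE, hP]; ring
  have hq0 : 4 * q ≠ 0 := by rw [hq]; omega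
  have hE3 : 3 ≤ E := by rw [hE]; omega
  obtain ⟨C, hC, hmain⟩ := T2h94.lattice_main μ (L := B.toLD) hd q r hC0.le hcar
  rw [← hP] at hmain
  rw [hpow] at hβ
  obtain ⟨c, hc⟩ : ∃ c : ℕ → ℝ, c = fun i => β i ^ (((4 * q : ℕ) : ℝ)⁻¹) := ⟨_, rfl⟩
  obtain ⟨K, hK⟩ : ∃ K : ℕ → ℕ, K = fun i => ⌈c i⌉₊ ^ E := ⟨_, rfl⟩
  -- the couplings
  have hcβ : ∀ᶠ i in atTop, 1 ≤ c i ∧ 1 ≤ c i * a i ∧ β i = (c i ^ q) ^ 4 ∧ a i ≤ 1 := by
    filter_upwards [hβ, ha0.eventually (ge_mem_nhds one_pos)] with i h1 h2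
    have hai := ha i
    have hβ0 : 0 < β i := by
      by_contra h
      push Not at h
      have : β i * a i ^ (4 * q) ≤ 0 := mul_nonpos_of_nonpos_of_nonneg h (by positivity)
      linarith
    have h3 : c i ^ (4 * q) = β i := by
      rw [hc]; exact Real.rpow_inv_natCast_pow hβ0.le hq0
    have hc0 : 0 < c i := by rw [hc]; exact Real.rpow_pos_of_pos hβ0 _
    have h4 : 1 ≤ c i * a i := by
      by_contra h
      push Not at h
      have h5 := pow_lt_one₀ (mul_nonneg hc0.le hai.le) h hq0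
      rw [mul_pow, h3] at h5
      linarith
    refine ⟨?_, h4, ?_, h2⟩
    · nlinarith
    · rw [← pow_mul, mul_comm q 4, h3]
  have hinv : Tendsto (fun i => (a i)⁻¹) atTop atTop :=
    (tendsto_nhdsWithin_iff.2 ⟨ha0, Eventually.of_forall fun i => ha i⟩).inv_tendsto_nhdsGT_zero
  have hKa : Tendsto (fun i => (K i : ℝ) * a i ^ 2) atTop atTop := by
    refine tendsto_atTop_mono' atTop ?_ hinv
    filter_upwards [hcβ] with i hi
    obtain ⟨h1, h2, _, _⟩ := hi
    have hai := ha i
    have h3 : c i ^ 3 ≤ K i := by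
      rw [hK]; push_cast
      calc c i ^ 3 ≤ c i ^ E := pow_le_pow_right₀ h1 hE3
        _ ≤ _ := pow_le_pow_left₀ (by linarith) (Nat.le_ceil _) _
    have h4 : (a i)⁻¹ ≤ c i := by rw [inv_le_iff_one_le_mul₀ hai]; exact h2
    calc (a i)⁻¹ ≤ c i := h4
      _ = c i * 1 ^ 2 := by ring
      _ ≤ c i * (c i * a i) ^ 2 := by
          refine mul_le_mul_of_nonneg_left ?_ (by linarith)
          exact pow_le_pow_left₀ zero_le_one h2 2
      _ = c i ^ 3 * a i ^ 2 := by ring
      _ ≤ _ := mul_le_mul_of_nonneg_right h3 (by positivity)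
  -- the points
  have hyB : ∀ᶠ i in atTop, ∀ s k, 2 * |y i s k| + 2 ≤ (K i : ℤ) := by
    refine eventually_all.2 fun s => eventually_all.2 fun k => ?_
    have h1 : ∀ᶠ i in atTop, |a i * (y i s k : ℝ)| < |x s k| + 1 :=
      (hy s k).abs.eventually (gt_mem_nhds (by linarith [abs_nonneg (x s k)]))
    have h2 : ∀ᶠ i in atTop, 2 * (|x s k| + 1) + 2 ≤ (K i : ℝ) * a i ^ 2 :=
      hKa.eventually (eventually_ge_atTop _)
    filter_upwards [h1, h2, hcβ] with i h1 h2 h3
    have hai := ha i
    have ha1 := h3.2.2.2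
    rw [abs_mul, abs_of_pos hai] at h1
    have h4 : ((2 * |y i s k| + 2 : ℤ) : ℝ) * a i ^ 2 ≤ (K i : ℝ) * a i ^ 2 := by
      refine le_trans ?_ h2
      push_cast
      have h5 : 0 ≤ |(y i s k : ℝ)| := abs_nonneg _
      have h6 : a i ^ 2 ≤ a i := by nlinarith
      have h7 : |(y i s k : ℝ)| * a i ^ 2 ≤ |(y i s k : ℝ)| * a i :=
        mul_le_mul_of_nonneg_left h6 h5
      nlinarith
    have h5 := le_of_mul_le_mul_right h4 (by positivity : 0 < a i ^ 2)
    exact_mod_cast h5
  -- the bound in the infinite volume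
  obtain ⟨I, hI⟩ : ∃ I : ℕ → ℝ, I = fun i => ∫ V, ∏ s, (field (β i) V (y i s) (D s) -
    ∫ V', field (β i) V' (y i s) (D s) ∂(ν i)) ∂(ν i) := ⟨_, rfl⟩
  obtain ⟨W, hW⟩ : ∃ W : ℕ → ℝ, W = fun i => ∑ α : Fin r → Fin n,
    T2h94.wick (T2h94.Cz (fun z p q => T2h94.hk d (K i) p q z) (y i) D α) Finset.univ := ⟨_, rfl⟩
  have hbd : ∀ᶠ i in atTop, |(a i ^ (d * r))⁻¹ * I i - (a i ^ (d * r))⁻¹ * W i| ≤
      C * (1 + 2 ^ (E * P)) * a i := by
    filter_upwards [hcβ, hyB] with i h1 h2
    obtain ⟨hc1, hca, hβi, _⟩ := h1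
    have hai := ha i
    have hci : 0 < c i := by linarith
    have hK1 : 1 ≤ K i := by
      rw [hK]
      exact Nat.one_le_pow _ _ (Nat.ceil_pos.2 hci)
    obtain ⟨s, hs, hlim⟩ := (hν i).lim
    have := (hν i).prob
    have hT := trunc_lim μ B hβi hlim (y i) D
    have hle : |I i - W i| ≤ C * c i ^ (r + 2) * (1 / Real.sqrt (Real.sqrt (K i)) +
          (K i : ℝ) ^ P / (c i ^ q) ^ 2) := by
      have hI' : I i = ∫ V, ∏ s, (field (β i) V (y i s) (D s) -
        ∫ V', field (β i) V' (y i s) (D s) ∂(ν i)) ∂(ν i) := by rw [hI]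
      have hW' : W i = ∑ α : Fin r → Fin n,
        T2h94.wick (T2h94.Cz (fun z p q => T2h94.hk d (K i) p q z) (y i) D α) Finset.univ := by
        rw [hW]
      rw [← hI'] at hT
      refine le_of_tendsto (hT.sub_const (W i)).abs ?_
      filter_upwards [hs.eventually (eventually_gt_atTop (3 * K i + 5))] with j hj
      have h3 := hmain (c i) hc1 (s j + 1) (K i) hK1 (by omega) (y i) D h2
      rw [← hW'] at h3
      exact h3
    rw [← mul_sub, abs_mul, abs_of_pos (by positivity)]
    have h4 := T2h94.err_bound (d := d) hE hq hc1 hai hca (K := K i) (by rw [hK])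
    have h5 : 1 / c i ≤ a i := by rw [div_le_iff₀ hci]; linarith
    calc (a i ^ (d * r))⁻¹ * |I i - W i| ≤ (a i ^ (d * r))⁻¹ * (C * c i ^ (r + 2) *
        (1 / Real.sqrt (Real.sqrt (K i)) + (K i : ℝ) ^ P / (c i ^ q) ^ 2)) :=
          mul_le_mul_of_nonneg_left hle (by positivity)
      _ = C * ((a i ^ (d * r))⁻¹ * (c i ^ (r + 2) *
        (1 / Real.sqrt (Real.sqrt (K i)) + (K i : ℝ) ^ P / (c i ^ q) ^ 2))) := by ring
      _ ≤ C * ((1 + 2 ^ (E * P)) / c i) := mul_le_mul_of_nonneg_left h4 hC.le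
      _ = C * (1 + 2 ^ (E * P)) * (1 / c i) := by ring
      _ ≤ _ := mul_le_mul_of_nonneg_left h5 (by positivity)
  -- the limit
  have hWlim := T2h94.wick_scal (n := n) (fun l j _ hX _ ha ha0 _ hK _ hz =>
    T2h85.KA.kernel_limit hd l j hX ha ha0 hK hz) ha ha0 hKa hx hy D
  have hdiff : Tendsto (fun i => (a i ^ (d * r))⁻¹ * I i - (a i ^ (d * r))⁻¹ * W i) atTop
      (𝓝 0) := by
    refine squeeze_zero_norm' ?_ (by simpa using ha0.const_mul (C * (1 + 2 ^ (E * P))))
    simpa only [Real.norm_eq_abs] using hbd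
  have hsum := hdiff.add hWlim
  rw [zero_add, ← wickSquares_eq] at hsum
  refine hsum.congr fun i => ?_
  have e1 : (fun V : LinkZ d → G => ∏ s, ((a i ^ d)⁻¹ * (field (β i) V (y i s) (D s) -
            ∫ V', field (β i) V' (y i s) (D s) ∂(ν i)))) = fun V => (a i ^ (d * r))⁻¹ *
            ∏ s, (field (β i) V (y i s) (D s) - ∫ V', field (β i) V' (y i s) (D s) ∂(ν i)) := by
    funext V
    rw [Finset.prod_mul_distrib, Finset.prod_const, Finset.card_univ, Fintype.card_fin, pow_mul,
      inv_pow]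
  rw [e1, integral_const_mul, hI, hW]
  ring

end

end Pool.Agent.Results.MP_7f377f_mp.C_ScalingLimit
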